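import Pool.Agent.Q141.Arbor.Words

set_option autoImplicit false

/-!
# MP_edc851_co: the h*-polynomial of arbor polytopes

For every `n ≥ 1` and every arbor of size `n`, the h*-polynomial of the arbor polytope is
`∑ t^(n - 1 - des w)`, the sum over the words `w` of the arbor.
-/

namespace Pool.Agent.Results.MP_edc851_co.HStarWords

open Finset PowerSeries
open Pool.Agent.Q141.Arbor

/-- An arbor of size `n`: a rooted tree whose vertices are the blocks of a set partition of
`Fin n`. It is given by its root `root` and the forest `below` of the subtrees below the root;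
`valid` says that the vertices are nonempty and pairwise disjoint, `cover` that their union is
everything. -/
structure Arbor (n : ℕ) where
  root : Finset (Fin n)
  below : Forest n
  valid : (Forest.cons root below Forest.nil).Valid
  cover : (Forest.cons root below Forest.nil).supp = Finset.univ

/-- The sets `D(v)`, for the vertices `v` of the arbor. -/
def Arbor.sets {n : ℕ} (a : Arbor n) : List (Finset (Fin n)) :=
  (Forest.cons a.root a.below Forest.nil).desc

/-- The arbor polytope. -/
def Arbor.polytope {n : ℕ} (a : Arbor n) : Set (Fin n → ℝ) :=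
  {x | (∀ i, 0 ≤ x i) ∧ ∀ D ∈ a.sets, ∑ i ∈ D, x i ≤ (D.card : ℝ)}

/-- The number of integer points in the `m`-th dilate of `P`. -/
noncomputable def ehrhart {n : ℕ} (P : Set (Fin n → ℝ)) (m : ℕ) : ℕ :=
  Set.ncard {z : Fin n → ℤ | (fun i => (z i : ℝ)) ∈ (fun x => (m : ℝ) • x) '' P}

/-- The number of descents of a word of length `N + 1`. -/
def des {N k : ℕ} (w : Fin (N + 1) → Fin k) : ℕ :=
  (univ.filter (fun i : Fin N => w i.succ < w i.castSucc)).card

/-- The words of the arbor. -/
def Arbor.words {n : ℕ} (a : Arbor n) : Finset (Fin n → Fin n) :=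
  univ.filter (fun w => ∀ D ∈ a.sets, D.card ≤ (univ.filter (fun j => w j ∈ D)).card)

variable {n : ℕ}

lemma univ_mem (a : Arbor n) : (univ : Finset (Fin n)) ∈ a.sets := by
  unfold Arbor.sets
  have h := a.cover
  simp only [Forest.supp, union_empty] at h
  simp only [Forest.desc, List.mem_cons]
  left
  exact h.symm

lemma mem_dilate (a : Arbor n) (m : ℕ) (z : Fin n → ℤ) :
    (fun i => (z i : ℝ)) ∈ (fun x => (m : ℝ) • x) '' a.polytope ↔
      (∀ i, 0 ≤ z i) ∧ ∀ D ∈ a.sets, ∑ i ∈ D, z i ≤ m * D.card := by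
  constructor
  · rintro ⟨x, ⟨hx1, hx2⟩, hx⟩
    have hz : ∀ i, (z i : ℝ) = m * x i := fun i => by
      have := congrFun hx i
      simp only [Pi.smul_apply, smul_eq_mul] at this
      exact this.symm
    refine ⟨fun i => ?_, fun D hD => ?_⟩
    · have : (0 : ℝ) ≤ z i := by rw [hz]; exact mul_nonneg (Nat.cast_nonneg m) (hx1 i)
      exact_mod_cast this
    · have h1 : ((∑ i ∈ D, z i : ℤ) : ℝ) ≤ ((m * D.card : ℤ) : ℝ) := by
        push_cast
        simp_rw [hz]
        rw [← mul_sum]
        exact mul_le_mul_of_nonneg_left (hx2 D hD) (Nat.cast_nonneg m)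
      exact_mod_cast h1
  · rintro ⟨h1, h2⟩
    rcases Nat.eq_zero_or_pos m with hm | hm
    · subst hm
      have h3 := h2 _ (univ_mem a)
      have h4 : ∀ i, z i = 0 := by
        have h5 : ∑ i, z i = 0 := le_antisymm (by simpa using h3) (sum_nonneg fun i _ => h1 i)
        rw [sum_eq_zero_iff_of_nonneg (fun i _ => h1 i)] at h5
        exact fun i => h5 i (mem_univ i)
      refine ⟨fun _ => 0, ⟨fun _ => le_rfl, fun D _ => by simp⟩, ?_⟩
      ext i
      simp [h4 i]
    · have hm' : (0 : ℝ) < m := by exact_mod_cast hm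
      refine ⟨fun i => (z i : ℝ) / m, ⟨fun i => ?_, fun D hD => ?_⟩, ?_⟩
      · have : (0 : ℝ) ≤ z i := by exact_mod_cast h1 i
        exact div_nonneg this hm'.le
      · rw [← sum_div, div_le_iff₀ hm']
        have := h2 D hD
        have h3 : ((∑ i ∈ D, z i : ℤ) : ℝ) ≤ ((m * D.card : ℤ) : ℝ) := by exact_mod_cast this
        push_cast at h3
        linarith
      · ext i
        simp only [Pi.smul_apply, smul_eq_mul]
        field_simp

open Classical in
lemma ehrhart_eq (a : Arbor n) (m : ℕ) :
    (ehrhart a.polytope m : ℤ) =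
      ∑ j ∈ range (m * n + 1), coeff j (z geo (prF m) (Forest.cons a.root a.below Forest.nil)) := by
  set F := Forest.cons a.root a.below Forest.nil with hF
  let T : Finset (Fin n → ℕ) :=
    (Fintype.piFinset (fun _ : Fin n => range (m * n + 1))).filter (fun x => Ok (prF m) F x)
  have htop : ∀ x : Fin n → ℕ, Ok (prF m) F x → ∑ i, x i ≤ m * n := by
    intro x hx
    have := hx _ (univ_mem a)
    simpa using this
  have h1 : {z : Fin n → ℤ | (fun i => (z i : ℝ)) ∈ (fun x => (m : ℝ) • x) '' a.polytope} =
      (fun (x : Fin n → ℕ) => fun i => (x i : ℤ)) '' (T : Set (Fin n → ℕ)) := by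
    ext y
    rw [Set.mem_ofPred_eq, mem_dilate]
    constructor
    · rintro ⟨h2, h3⟩
      have hy : ∀ i, ((y i).toNat : ℤ) = y i := fun i => Int.toNat_of_nonneg (h2 i)
      have hok : Ok (prF m) F (fun i => (y i).toNat) := by
        intro D hD
        have h4 := h3 D hD
        have h5 : ((∑ i ∈ D, (y i).toNat : ℕ) : ℤ) ≤ ((m * D.card : ℕ) : ℤ) := by
          push_cast
          simp_rw [hy]
          exact h4
        exact_mod_cast h5
      refine ⟨fun i => (y i).toNat, ?_, ?_⟩
      · rw [Finset.mem_coe, mem_filter]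
        refine ⟨?_, hok⟩
        rw [Fintype.mem_piFinset]
        intro i
        rw [mem_range]
        have h6 := htop _ hok
        have h7 : (y i).toNat ≤ ∑ i, (y i).toNat :=
          single_le_sum (f := fun i => (y i).toNat) (fun _ _ => Nat.zero_le _) (mem_univ i)
        omega
      · ext i; exact hy i
    · rintro ⟨x, hx, rfl⟩
      rw [Finset.mem_coe, mem_filter] at hx
      refine ⟨fun i => Int.natCast_nonneg _, fun D hD => ?_⟩
      have h4 : ∑ i ∈ D, x i ≤ m * D.card := hx.2 D hD
      show ∑ i ∈ D, (x i : ℤ) ≤ m * D.card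
      exact_mod_cast h4
  have hinj : Function.Injective (fun (x : Fin n → ℕ) => fun i => (x i : ℤ)) := by
    intro x y h
    ext i
    have h' : (x i : ℤ) = (y i : ℤ) := congrFun h i
    exact_mod_cast h'
  have h2 : ehrhart a.polytope m = T.card := by
    unfold ehrhart
    rw [h1, Set.ncard_image_of_injective _ hinj, Set.ncard_coe_finset]
  have h3 : T.card = ∑ j ∈ range (m * n + 1), (T.filter (fun x => ∑ i, x i = j)).card := by
    apply Finset.card_eq_sum_card_fiberwise
    intro x hx
    rw [Finset.mem_coe, mem_filter] at hx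
    rw [Finset.mem_coe, mem_range]
    exact Nat.lt_succ_of_le (htop x hx.2)
  rw [h2, h3, Nat.cast_sum]
  apply sum_congr rfl
  intro j hj
  rw [mem_range] at hj
  rw [coeff_z _ _ _ a.valid, a.cover]
  have h4 : T.filter (fun x => ∑ i, x i = j) = (piAntidiag univ j).filter (fun x => Ok (prF m) F x) := by
    ext x
    rw [mem_filter, mem_filter, mem_filter, mem_piAntidiag, Fintype.mem_piFinset]
    constructor
    · rintro ⟨⟨_, h5⟩, h6⟩
      exact ⟨⟨h6, fun i _ => mem_univ i⟩, h5⟩
    · rintro ⟨⟨h5, _⟩, h6⟩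
      refine ⟨⟨fun i => ?_, h6⟩, h5⟩
      rw [mem_range]
      have h7 : x i ≤ ∑ i, x i := single_le_sum (f := x) (fun _ _ => Nat.zero_le _) (mem_univ i)
      rw [h5] at h7
      omega
  rw [h4, card_filter, Nat.cast_sum]
  apply sum_congr rfl
  intro x _
  unfold wt
  rw [← hF]
  split_ifs with h
  · simp [geo]
  · simp

lemma content_sum {k : ℕ} (w : Fin k → Fin n) (D : Finset (Fin n)) :
    ∑ i ∈ D, (univ.filter (fun j => w j = i)).card = (univ.filter (fun j => w j ∈ D)).card := by
  rw [Finset.card_eq_sum_card_fiberwise (f := w) (t := D)]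
  · apply sum_congr rfl
    intro i hi
    congr 1
    ext j
    simp only [mem_filter, mem_univ, true_and]
    constructor
    · rintro rfl; exact ⟨hi, rfl⟩
    · rintro ⟨_, h⟩; exact h
  · intro j hj
    rw [Finset.mem_coe, mem_filter] at hj
    exact hj.2

open Classical in
lemma words_eq (N : ℕ) (a : Arbor (N + 1)) (m : ℕ) :
    coeff (N + 1) (z (bin m) prG (Forest.cons a.root a.below Forest.nil)) =
      ∑ w ∈ a.words, ((m + 1 + des w).choose (N + 1) : ℤ) := by
  rw [coeff_z _ _ _ a.valid, a.cover]
  have h1 : ∀ c : Fin (N + 1) → ℕ, wt (bin m) prG (Forest.cons a.root a.below Forest.nil) c =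
      ((if Ok prG (Forest.cons a.root a.below Forest.nil) c then ∏ i, (m + 1).choose (c i) else 0 : ℕ) : ℤ) := by
    intro c
    unfold wt
    rw [a.cover]
    split_ifs with h
    · push_cast
      apply prod_congr rfl
      intro i _
      rw [bin, coeff_one_add]
    · simp
  simp_rw [h1]
  rw [← Nat.cast_sum, ← cells_sum m (N + 1) (N + 1), ← words_cells]
  rw [Nat.cast_sum]
  apply sum_congr
  · unfold Arbor.words
    ext w
    rw [mem_filter, mem_filter]
    refine and_congr_right fun _ => ?_
    unfold Ok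
    refine forall₂_congr fun D _ => ?_
    rw [content_sum]
  · intro w _
    rfl

lemma mk_choose (N d : ℕ) (hd : d ≤ N) :
    (PowerSeries.mk fun m => ((m + 1 + d).choose (N + 1) : ℤ)) * (1 - X) ^ (N + 2) = X ^ (N - d) := by
  have h1 : (PowerSeries.mk fun m => ((m + 1 + d).choose (N + 1) : ℤ)) =
      X ^ (N - d) * PowerSeries.mk fun k => ((N + 1 + k).choose (N + 1) : ℤ) := by
    ext m
    rw [coeff_X_pow_mul']
    simp only [coeff_mk]
    split_ifs with h
    · congr 2
      omega
    · rw [Nat.choose_eq_zero_of_lt (by omega)]; simp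
  have h2 := mk_add_choose_mul_one_sub_pow_eq_one ℤ (N + 1)
  rw [h1, mul_assoc, h2, mul_one]

lemma des_le {N k : ℕ} (w : Fin (N + 1) → Fin k) : des w ≤ N := by
  unfold des
  exact (card_le_univ _).trans (by simp)

/-- For every `n = N + 1 ≥ 1` and every arbor of size `n`: the h*-polynomial of the arbor polytope,
that is `(∑ Ehr(m) t^m) (1 - t)^(n + 1)`, equals `∑ t^(n - 1 - des w)`, the sum over the words of
the arbor. -/
theorem result (N : ℕ) (a : Arbor (N + 1)) :
    (PowerSeries.mk fun m => (ehrhart a.polytope m : ℤ)) * (1 - X) ^ (N + 2) =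
      ((∑ w ∈ a.words, Polynomial.X ^ (N - des w) : Polynomial ℤ) : ℤ⟦X⟧) := by
  have h1 : (PowerSeries.mk fun m => (ehrhart a.polytope m : ℤ)) =
      ∑ w ∈ a.words, PowerSeries.mk fun m => ((m + 1 + des w).choose (N + 1) : ℤ) := by
    ext m
    rw [map_sum]
    simp only [coeff_mk]
    rw [ehrhart_eq, count_eq m _ a.valid a.cover, words_eq]
  rw [h1, sum_mul, ← Polynomial.coeToPowerSeries.ringHom_apply, map_sum]
  apply sum_congr rfl
  intro w _
  rw [mk_choose N (des w) (des_le w), Polynomial.coeToPowerSeries.ringHom_apply, Polynomial.coe_pow,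
    Polynomial.coe_X]

end Pool.Agent.Results.MP_edc851_co.HStarWords
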